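import Pool.Agent.TH71.TG.Defs

/-! # Automorphisms of the rationals through given points (job 5438, helper329) -/

set_option autoImplicit false

namespace Pool.Agent.TH71.TG

namespace Autox

theorem step (c y z : ℚ) (h1 : c < y) (h2 : c < z) :
    ∃ h : ℚ ≃o ℚ, (∀ x, x ≤ c → h x = x) ∧ h y = z := by
  have hy : 0 < y - c := by linarith
  have hz : 0 < z - c := by linarith
  obtain ⟨l, hl, hlz⟩ : ∃ l : ℚ, 0 < l ∧ l * (y - c) = z - c :=
    ⟨(z - c) / (y - c), div_pos hz hy, div_mul_cancel₀ _ hy.ne'⟩
  let f : ℚ → ℚ := fun x => if x ≤ c then x else c + l * (x - c)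
  have hf : StrictMono f := by
    intro a b hab
    simp only [f]
    split_ifs with h3 h4 h4
    · exact hab
    · have : 0 < l * (b - c) := mul_pos hl (by linarith [not_le.1 h4])
      linarith
    · linarith [not_le.1 h3]
    · have : l * (a - c) < l * (b - c) := mul_lt_mul_of_pos_left (by linarith) hl
      linarith
  have hs : Function.Surjective f := by
    intro w
    by_cases hw : w ≤ c
    · exact ⟨w, if_pos hw⟩
    · have h3 : 0 < (w - c) / l := div_pos (by linarith [not_le.1 hw]) hl
      refine ⟨c + (w - c) / l, ?_⟩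
      simp only [f]
      rw [if_neg (by linarith), add_sub_cancel_left, mul_div_cancel₀ _ hl.ne']
      ring
  refine ⟨hf.orderIsoOfSurjective f hs, fun x hx => if_pos hx, ?_⟩
  show f y = z
  simp only [f]
  rw [if_neg (by linarith), hlz]
  ring

end Autox

theorem exists_auto {r : ℕ} (s s' : Fin r → ℚ) (hs : StrictMono s) (hs' : StrictMono s') :
    ∃ g : ℚ ≃o ℚ, ∀ i, g (s i) = s' i := by
  induction r with
  | zero => exact ⟨OrderIso.refl ℚ, fun i => i.elim0⟩
  | succ r ih =>
    obtain ⟨g, hg⟩ := ih (fun i => s i.castSucc) (fun i => s' i.castSucc)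
      (fun a b hab => hs (by simpa using hab)) (fun a b hab => hs' (by simpa using hab))
    obtain ⟨c, hc, hc1, hc2⟩ : ∃ c : ℚ, (∀ i : Fin r, s' i.castSucc ≤ c) ∧
        c < g (s (Fin.last r)) ∧ c < s' (Fin.last r) := by
      rcases r with _ | r
      · refine ⟨min (g (s (Fin.last 0))) (s' (Fin.last 0)) - 1, fun i => i.elim0, ?_, ?_⟩
        · have := min_le_left (g (s (Fin.last 0))) (s' (Fin.last 0))
          linarith
        · have := min_le_right (g (s (Fin.last 0))) (s' (Fin.last 0))
          linarith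
      · refine ⟨s' (Fin.last r).castSucc, fun i => hs'.monotone ?_, ?_, ?_⟩
        · exact Fin.castSucc_le_castSucc_iff.2 (Fin.le_last i)
        · rw [← hg (Fin.last r)]
          exact g.strictMono (hs (Fin.castSucc_lt_last _))
        · exact hs' (Fin.castSucc_lt_last _)
    obtain ⟨h, h1, h2⟩ := Autox.step c _ _ hc1 hc2
    refine ⟨g.trans h, fun i => ?_⟩
    refine Fin.lastCases ?_ (fun j => ?_) i
    · exact h2
    · show h (g (s j.castSucc)) = s' j.castSucc
      rw [hg j]
      exact h1 _ (hc j)

end Pool.Agent.TH71.TG
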