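import Pool.Agent.TH71.TG.Defs
set_option autoImplicit false

/-! Cliques from an aligned edge (job TG-2 of helper71, written by helper324). -/

namespace Pool.Agent.TH71.TG

theorem cliques {r : ℕ} {A : (Fin r → ℚ) → (Fin r → ℚ) → Prop} (hA : Good r A) {x y : Fin r → ℚ}
    (hx : StrictMono x) (hy : StrictMono y) (hxy : A x y)
    (h1 : ∀ p q : Fin r, p < q → x p < y q ∧ y p < x q) : HasCliques A := by
  classical
  intro c
  obtain ⟨e, he⟩ : ∃ e : Fin r → ℚ, e = fun j => if x j < y j then 1 else if y j < x j then -1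
    else 0 := ⟨_, rfl⟩
  have he1 : ∀ j, -1 ≤ e j ∧ e j ≤ 1 := by
    intro j
    rw [he]
    dsimp only
    split_ifs <;> norm_num
  obtain ⟨z, hz⟩ : ∃ z : Fin c → Fin r → ℚ, z = fun (t : Fin c) (j : Fin r) =>
    (2 * (c : ℚ) + 3) * ((j : ℕ) : ℚ) + e j * ((t : ℕ) : ℚ) := ⟨_, rfl⟩
  have key : ∀ (s t : Fin c) (i j : Fin r), i < j → z s i < z t j := by
    intro s t i j hij
    have h2 : ((i : ℕ) : ℚ) + 1 ≤ ((j : ℕ) : ℚ) := by exact_mod_cast hij
    have hs : ((s : ℕ) : ℚ) + 1 ≤ c := by exact_mod_cast s.2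
    have ht : ((t : ℕ) : ℚ) + 1 ≤ c := by exact_mod_cast t.2
    have hs0 : (0 : ℚ) ≤ ((s : ℕ) : ℚ) := Nat.cast_nonneg _
    have ht0 : (0 : ℚ) ≤ ((t : ℕ) : ℚ) := Nat.cast_nonneg _
    have a1 : e i * ((s : ℕ) : ℚ) ≤ 1 * ((s : ℕ) : ℚ) := mul_le_mul_of_nonneg_right (he1 i).2 hs0
    have a2 : -1 * ((t : ℕ) : ℚ) ≤ e j * ((t : ℕ) : ℚ) := mul_le_mul_of_nonneg_right (he1 j).1 ht0
    have a3 : (2 * (c : ℚ) + 3) * (((i : ℕ) : ℚ) + 1) ≤ (2 * (c : ℚ) + 3) * ((j : ℕ) : ℚ) :=
      mul_le_mul_of_nonneg_left h2 (by positivity)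
    rw [hz]
    dsimp only
    linarith
  have mono : ∀ t, StrictMono (z t) := fun t i j hij => key t t i j hij
  have hdiff : ∀ (s t : Fin c) (i : Fin r), z t i - z s i = e i * (((t : ℕ) : ℚ) - ((s : ℕ) : ℚ)) := by
    intro s t i
    rw [hz]
    dsimp only
    ring
  have main : ∀ s t : Fin c, s < t → A (z s) (z t) := by
    intro s t hst
    have hd : (0 : ℚ) < ((t : ℕ) : ℚ) - ((s : ℕ) : ℚ) := by
      have : ((s : ℕ) : ℚ) < ((t : ℕ) : ℚ) := by exact_mod_cast hst
      linarith
    refine hA.inv x y (z s) (z t) hx hy (mono s) (mono t) ?_ hxy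
    intro i j
    rcases lt_trichotomy i j with h | h | h
    · have b1 := (h1 i j h).1
      have b2 := key s t i j h
      exact ⟨iff_of_true b1 b2, iff_of_false (not_lt.2 b1.le) (not_lt.2 b2.le)⟩
    · subst h
      have hdi := hdiff s t i
      rcases lt_trichotomy (x i) (y i) with h | h | h
      · have e1 : e i = 1 := by
          rw [he]
          dsimp only
          rw [if_pos h]
        rw [e1, one_mul] at hdi
        have b2 : z s i < z t i := by linarith
        exact ⟨iff_of_true h b2, iff_of_false (not_lt.2 h.le) (not_lt.2 b2.le)⟩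
      · have e1 : e i = 0 := by
          rw [he]
          dsimp only
          rw [if_neg (by rw [h]; exact lt_irrefl _), if_neg (by rw [h]; exact lt_irrefl _)]
        rw [e1, zero_mul] at hdi
        have b2 : z t i = z s i := by linarith
        rw [h, b2]
        exact ⟨iff_of_false (lt_irrefl _) (lt_irrefl _), iff_of_false (lt_irrefl _) (lt_irrefl _)⟩
      · have e1 : e i = -1 := by
          rw [he]
          dsimp only
          rw [if_neg (not_lt.2 h.le), if_pos h]
        rw [e1] at hdi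
        have b2 : z t i < z s i := by linarith
        exact ⟨iff_of_false (not_lt.2 h.le) (not_lt.2 b2.le), iff_of_true h b2⟩
    · have b1 := (h1 j i h).2
      have b2 := key t s j i h
      exact ⟨iff_of_false (not_lt.2 b1.le) (not_lt.2 b2.le), iff_of_true b1 b2⟩
  refine ⟨z, mono, fun a b hab => ?_⟩
  rcases lt_or_gt_of_ne hab with h | h
  · exact main a b h
  · exact hA.symm _ _ (main b a h)

end Pool.Agent.TH71.TG
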