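import Pool.Agent.TH71.TG.Pert
import Pool.Agent.TH71.TG.Auto
import Pool.Agent.H367R3.GSForest
set_option autoImplicit false

open Finset

namespace Pool.Agent.TH71.TG

section
variable {k : ℕ} {α β γ : Type} [LinearOrder α] [LinearOrder β] [LinearOrder γ]

theorem ST_eq {x y : Fin k → α} {x' y' : Fin k → β} (h : ST x y x' y') (i j : Fin k) :
    x i = y j ↔ x' i = y' j := by
  have h1 := h i j
  constructor
  · intro h2
    refine le_antisymm (not_lt.1 fun h3 => ?_) (not_lt.1 fun h3 => ?_)
    · exact absurd (h1.2.2 h3) (by rw [h2]; exact lt_irrefl _)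
    · exact absurd (h1.1.2 h3) (by rw [h2]; exact lt_irrefl _)
  · intro h2
    refine le_antisymm (not_lt.1 fun h3 => ?_) (not_lt.1 fun h3 => ?_)
    · exact absurd (h1.2.1 h3) (by rw [h2]; exact lt_irrefl _)
    · exact absurd (h1.1.1 h3) (by rw [h2]; exact lt_irrefl _)

theorem ST_swap {x y : Fin k → α} {x' y' : Fin k → β} (h : ST x y x' y') : ST y x y' x' :=
  fun i j => ⟨(h j i).2, (h j i).1⟩

theorem ST_trans {x y : Fin k → α} {x' y' : Fin k → β} {x'' y'' : Fin k → γ}
    (h : ST x y x' y') (h' : ST x' y' x'' y'') : ST x y x'' y'' :=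
  fun i j => ⟨(h i j).1.trans (h' i j).1, (h i j).2.trans (h' i j).2⟩

end

/-- extension of a point of the tree by an edge of the given type, with fresh elements -/
theorem extend {r : ℕ} {a b p : Fin r → ℚ} (ha : StrictMono a) (hb : StrictMono b)
    (hp : StrictMono p) (U : Finset ℚ) :
    ∃ v : Fin r → ℚ, StrictMono v ∧ ST a b p v ∧ ∀ j, (∀ i, a i ≠ b j) → v j ∉ U := by
  obtain ⟨g, hg⟩ := exists_auto a p ha hp
  have hv0 : StrictMono (fun j => g (b j)) := g.strictMono.comp hb
  have h1 : ST a b p (fun j => g (b j)) := by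
    intro i j
    rw [← hg i]
    exact ⟨g.lt_iff_lt.symm, g.lt_iff_lt.symm⟩
  obtain ⟨v, hv, hpv, hU⟩ := perturb (fun j => g (b j)) p hv0 (fun j => ∀ i, a i ≠ b j)
    (by
      intro j hj i h2
      rw [← hg i] at h2
      exact hj i (g.injective h2)) U
  exact ⟨v, hv, ST_trans h1 hpv, hU⟩

/-- the equalities between two tuples -/
def J {r : ℕ} (x y : Fin r → ℚ) : Finset (Fin r × Fin r) := univ.filter fun q => x q.1 = y q.2

theorem mem_J {r : ℕ} {x y : Fin r → ℚ} {q : Fin r × Fin r} : q ∈ J x y ↔ x q.1 = y q.2 := by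
  simp [J]

theorem J_congr {r : ℕ} {x y x' y' : Fin r → ℚ} (h : ST x y x' y') : J x y = J x' y' := by
  ext q
  rw [mem_J, mem_J, ST_eq h]

/-- the pairs of equalities which can be continued -/
def K {r : ℕ} (a b : Fin r → ℚ) : Finset (Fin r × Fin r) :=
  (J a b).filter fun q => ∃ i, a i = b q.1

theorem card_K_lt {r : ℕ} {a b : Fin r → ℚ} (ha : StrictMono a) (hb : StrictMono b)
    (h : ∃ i j, i ≠ j ∧ a i = b j) : (K a b).card < (J a b).card := by
  classical
  -- a value of `b` which is a value of `a` at `j0`-th place while `a j0` is not a value of `b`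
  have key : ∃ i j, a i = b j ∧ ∀ l, a j ≠ b l := by
    obtain ⟨i, j, hij, he⟩ := h
    rcases lt_or_gt_of_ne hij with hlt | hlt
    · -- i < j : take j maximal
      let S : Finset (Fin r × Fin r) := (J a b).filter fun q => q.1 < q.2
      have hS : S.Nonempty := ⟨(i, j), by simp [S, mem_J, he, hlt]⟩
      obtain ⟨q, hq, hmax⟩ := S.exists_max_image (fun q => q.2) hS
      have hq' : a q.1 = b q.2 ∧ q.1 < q.2 := by simpa [S, mem_J] using hq
      refine ⟨q.1, q.2, hq'.1, ?_⟩
      intro l hl
      have h1 : b q.2 < b l := by rw [← hl, ← hq'.1]; exact ha hq'.2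
      have h2 : q.2 < l := hb.lt_iff_lt.1 h1
      have h3 : (q.2, l) ∈ S := by simp [S, mem_J, hl, h2]
      exact absurd (hmax _ h3) (not_le.2 h2)
    · let S : Finset (Fin r × Fin r) := (J a b).filter fun q => q.2 < q.1
      have hS : S.Nonempty := ⟨(i, j), by simp [S, mem_J, he, hlt]⟩
      obtain ⟨q, hq, hmin⟩ := S.exists_min_image (fun q => q.2) hS
      have hq' : a q.1 = b q.2 ∧ q.2 < q.1 := by simpa [S, mem_J] using hq
      refine ⟨q.1, q.2, hq'.1, ?_⟩
      intro l hl
      have h1 : b l < b q.2 := by rw [← hl, ← hq'.1]; exact ha hq'.2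
      have h2 : l < q.2 := hb.lt_iff_lt.1 h1
      have h3 : (q.2, l) ∈ S := by simp [S, mem_J, hl, h2]
      exact absurd (hmin _ h3) (not_le.2 h2)
  obtain ⟨i0, j0, he0, hj0⟩ := key
  -- first coordinates of `K` lie in the second coordinates of `J` without `j0`
  have h1 : (K a b).card ≤ (((J a b).image Prod.snd).erase j0).card := by
    apply Finset.card_le_card_of_injOn (fun q => q.1)
    · intro q hq
      have hq' : a q.1 = b q.2 ∧ ∃ i, a i = b q.1 := by simpa [K, mem_J] using hq
      obtain ⟨i, hi⟩ := hq'.2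
      rw [mem_coe, mem_erase, mem_image]
      refine ⟨?_, (i, q.1), by rw [mem_J]; exact hi, rfl⟩
      intro h2
      exact hj0 q.2 (by rw [← h2]; exact hq'.1)
    · intro q hq q' hq' hqq
      have h2 : a q.1 = b q.2 := by
        have : a q.1 = b q.2 ∧ ∃ i, a i = b q.1 := by simpa [K, mem_J] using hq
        exact this.1
      have h3 : a q'.1 = b q'.2 := by
        have : a q'.1 = b q'.2 ∧ ∃ i, a i = b q'.1 := by simpa [K, mem_J] using hq'
        exact this.1
      have h4 : q.1 = q'.1 := hqq
      have h5 : q.2 = q'.2 := hb.injective (by rw [← h2, ← h3, h4])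
      exact Prod.ext h4 h5
  have h2 : j0 ∈ (J a b).image Prod.snd := by
    rw [mem_image]
    exact ⟨(i0, j0), by rw [mem_J]; exact he0, rfl⟩
  have h3 : ((J a b).image Prod.snd).card ≤ (J a b).card := card_image_le
  have h4 := card_erase_lt_of_mem h2
  omega

/-- invariant for two points of the tree -/
def NA {r : ℕ} (a b x y : Fin r → ℚ) : Prop :=
  (J x y).card < (J a b).card ∨ ∀ i j, x i = y j → i = j ∧ ∃ l, a l = b i

theorem NA_symm {r : ℕ} {a b x y : Fin r → ℚ} (h : NA a b x y) : NA a b y x := by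
  rcases h with h | h
  · left
    have : (J y x).card = (J x y).card := by
      apply Finset.card_bij (fun q _ => (q.2, q.1))
      · intro q hq; rw [mem_J] at hq ⊢; exact hq.symm
      · intro q _ q' _ h1
        simp only [Prod.mk.injEq] at h1
        exact Prod.ext h1.2 h1.1
      · intro q hq
        exact ⟨(q.2, q.1), by rw [mem_J] at hq ⊢; exact hq.symm, rfl⟩
    rw [this]; exact h
  · right
    intro i j hij
    obtain ⟨h1, h2⟩ := h j i hij.symm
    subst h1
    exact ⟨rfl, h2⟩

/-- the step: a new leaf `v` at `p`, seen from another point `u` -/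
theorem step {r : ℕ} {a b p v u : Fin r → ℚ} (ha : StrictMono a) (hb : StrictMono b)
    (hu : StrictMono u) (hv : StrictMono v)
    (hK : (K a b).card < (J a b).card) (hpv : ST a b p v)
    (hfresh : ∀ j, (∀ i, a i ≠ b j) → ∀ i, u i ≠ v j)
    (h : ST a b u p ∨ ST a b p u ∨ NA a b u p) : NA a b u v := by
  classical
  -- every equality between `u` and `v` passes through `p`
  have hthr : ∀ i l, u i = v l → ∃ j, a j = b l ∧ u i = p j := by
    intro i l hil
    by_contra hcon
    push Not at hcon
    by_cases h1 : ∃ j, a j = b l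
    · obtain ⟨j, hj⟩ := h1
      exact hcon j hj (by rw [hil, ← (ST_eq hpv j l).1 hj])
    · push Not at h1
      exact hfresh l h1 i hil
  let jf : Fin r → Fin r := fun l => if h : ∃ j, a j = b l then h.choose else l
  have hjf : ∀ l, (∃ j, a j = b l) → a (jf l) = b l := by
    intro l hl
    simp only [jf, dif_pos hl]
    exact hl.choose_spec
  have hjf' : ∀ i l, u i = v l → a (jf l) = b l ∧ u i = p (jf l) := by
    intro i l hil
    obtain ⟨j, hj, hj'⟩ := hthr i l hil
    have h1 := hjf l ⟨j, hj⟩
    have h2 : j = jf l := ha.injective (by rw [hj, h1])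
    exact ⟨h1, by rw [← h2]; exact hj'⟩
  rcases h with h | h | h | h
  · left
    refine lt_of_le_of_lt ?_ hK
    apply Finset.card_le_card_of_injOn (fun q => (jf q.2, q.2))
    · intro q hq
      rw [mem_coe, mem_J] at hq
      obtain ⟨h1, h2⟩ := hjf' q.1 q.2 hq
      have h3 : a q.1 = b (jf q.2) := (ST_eq h _ _).2 h2
      simp only [K, coe_filter, mem_J, Set.mem_setOf_eq]
      exact ⟨h1, q.1, h3⟩
    · intro q hq q' hq' hqq
      rw [mem_coe, mem_J] at hq hq'
      simp only [Prod.mk.injEq] at hqq
      have h1 : u q.1 = u q'.1 := by rw [hq, hq', hqq.2]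
      exact Prod.ext (hu.injective h1) hqq.2
  · right
    intro i l hil
    obtain ⟨h1, h2⟩ := hjf' i l hil
    have h3 : a (jf l) = b i := (ST_eq h _ _).2 h2.symm
    have h4 : i = l := hb.injective (by rw [← h3, h1])
    exact ⟨h4, jf l, h3⟩
  · left
    refine lt_of_le_of_lt ?_ h
    apply Finset.card_le_card_of_injOn (fun q => (q.1, jf q.2))
    · intro q hq
      rw [mem_coe, mem_J] at hq
      rw [mem_coe, mem_J]
      exact (hjf' q.1 q.2 hq).2
    · intro q hq q' hq' hqq
      rw [mem_coe, mem_J] at hq hq'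
      simp only [Prod.mk.injEq] at hqq
      have h1 := (hjf' _ _ hq).1
      have h2 := (hjf' _ _ hq').1
      have h3 : q.2 = q'.2 := hb.injective (by rw [← h1, ← h2, hqq.2])
      exact Prod.ext hqq.1 h3
  · left
    refine lt_of_le_of_lt ?_ hK
    apply Finset.card_le_card
    intro q hq
    rw [mem_J] at hq
    obtain ⟨h1, h2⟩ := hjf' q.1 q.2 hq
    obtain ⟨h3, h4⟩ := h _ _ h2
    rw [← h3] at h1
    simp only [K, mem_filter, mem_J]
    exact ⟨h1, h4⟩

theorem tree_emb {r : ℕ} {a b : Fin r → ℚ} (ha : StrictMono a) (hb : StrictMono b)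
    (hK : (K a b).card < (J a b).card) : ∀ (n : ℕ) (V : Type) [Fintype V] (T : SimpleGraph V),
    T.IsTree → Fintype.card V = n + 1 → ∃ z : V → Fin r → ℚ, (∀ v, StrictMono (z v)) ∧
      (∀ v w, T.Adj v w → ST a b (z v) (z w) ∨ ST a b (z w) (z v)) ∧
      (∀ v w, v ≠ w → ¬ T.Adj v w → NA a b (z v) (z w)) := by
  intro n
  induction n with
  | zero =>
    intro V _ T hT hV
    have hsub : Subsingleton V := by
      rw [← Fintype.card_le_one_iff_subsingleton]
      omega
    refine ⟨fun _ => a, fun _ => ha, ?_, ?_⟩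
    · intro v w hvw
      exact absurd (Subsingleton.elim v w) hvw.ne
    · intro v w hvw
      exact absurd (Subsingleton.elim v w) hvw
  | succ n ih =>
    intro V _ T hT hV
    classical
    have hnt : Nontrivial V := by
      rw [← Fintype.one_lt_card_iff_nontrivial]
      omega
    obtain ⟨l, hl⟩ := hT.exists_vert_degree_one_of_nontrivial
    have hconn := hT.connected.induce_compl_singleton_of_degree_eq_one hl
    have hT' : (T.induce ({l}ᶜ : Set V)).IsTree := ⟨hconn, hT.isAcyclic.induce _⟩
    obtain ⟨u, hu, huu⟩ := SimpleGraph.degree_eq_one_iff_existsUnique_adj.1 hl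
    have hu' : u ∈ ({l}ᶜ : Set V) := fun h => hu.ne h.symm
    have hcard : Fintype.card ({l}ᶜ : Set V) = n + 1 := by
      rw [Fintype.card_compl_set]
      simp
      omega
    obtain ⟨z, hz1, hz2, hz3⟩ := ih ({l}ᶜ : Set V) (T.induce ({l}ᶜ : Set V)) hT' hcard
    let U : Finset ℚ := (univ : Finset (({l}ᶜ : Set V) × Fin r)).image fun q => z q.1 q.2
    obtain ⟨v, hv, hpv, hU⟩ := extend ha hb (hz1 ⟨u, hu'⟩) U
    have hfresh : ∀ w : ({l}ᶜ : Set V), ∀ j, (∀ i, a i ≠ b j) → ∀ i, z w i ≠ v j := by
      intro w j hj i h1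
      apply hU j hj
      rw [← h1]
      exact mem_image.2 ⟨(w, i), mem_univ _, rfl⟩
    have hadj : ∀ w, T.Adj l w → w = u := fun w hw => huu w hw
    have hna : ∀ w : ({l}ᶜ : Set V), (w : V) ≠ u → NA a b (z w) v := by
      intro w hw
      refine step ha hb (hz1 w) hv hK hpv (hfresh w) ?_
      by_cases h1 : T.Adj w u
      · rcases hz2 w ⟨u, hu'⟩ h1 with h2 | h2
        · exact Or.inl h2
        · exact Or.inr (Or.inl h2)
      · exact Or.inr (Or.inr (hz3 w ⟨u, hu'⟩ (fun h2 => hw (congrArg Subtype.val h2)) h1))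
    refine ⟨fun w => if h : w = l then v else z ⟨w, h⟩, ?_, ?_, ?_⟩
    · intro w
      by_cases h : w = l
      · simp only [h, dif_pos]; exact hv
      · simp only [h, dif_neg, not_false_eq_true]; exact hz1 _
    · intro w w' hww
      by_cases h : w = l
      · have h' : w' ≠ l := fun h2 => hww.ne (h.trans h2.symm)
        subst h
        have h2 := hadj w' hww
        subst h2
        simp only [dif_pos, h', dif_neg, not_false_eq_true]
        exact Or.inr hpv
      · by_cases h' : w' = l
        · subst h'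
          have h2 := hadj w hww.symm
          subst h2
          simp only [dif_pos, h, dif_neg, not_false_eq_true]
          exact Or.inl hpv
        · simp only [h, h', dif_neg, not_false_eq_true]
          exact hz2 ⟨w, h⟩ ⟨w', h'⟩ hww
    · intro w w' hne hww
      by_cases h : w = l
      · have h' : w' ≠ l := fun h2 => hne (h.trans h2.symm)
        subst h
        have h2 : w' ≠ u := fun h3 => hww (by rw [h3]; exact hu)
        simp only [dif_pos, h', dif_neg, not_false_eq_true]
        exact NA_symm (hna ⟨w', h'⟩ h2)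
      · by_cases h' : w' = l
        · subst h'
          have h2 : w ≠ u := fun h3 => hww (by rw [h3]; exact hu.symm)
          simp only [dif_pos, h, dif_neg, not_false_eq_true]
          exact hna ⟨w, h⟩ h2
        · simp only [h, h', dif_neg, not_false_eq_true]
          exact hz3 ⟨w, h⟩ ⟨w', h'⟩ (fun h2 => hne (congrArg Subtype.val h2)) hww

theorem forests {r : ℕ} {A : (Fin r → ℚ) → (Fin r → ℚ) → Prop} (hA : Good r A)
    (he : ∃ x y, StrictMono x ∧ StrictMono y ∧ A x y)
    (hd : ∀ x y, StrictMono x → StrictMono y → A x y → ∃ i j, i ≠ j ∧ x i = y j) :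
    HasForests A := by
  classical
  -- an edge with the least number of equalities
  let P : ℕ → Prop := fun N => ∃ x y, StrictMono x ∧ StrictMono y ∧ A x y ∧ (J x y).card = N
  have hP : ∃ N, P N := by
    obtain ⟨x, y, hx, hy, hxy⟩ := he
    exact ⟨_, x, y, hx, hy, hxy, rfl⟩
  obtain ⟨a, b, ha, hb, hab, hcard⟩ := Nat.find_spec hP
  have hmin : ∀ x y, StrictMono x → StrictMono y → A x y → (J a b).card ≤ (J x y).card := by
    intro x y hx hy hxy
    rw [hcard]
    exact Nat.find_min' hP ⟨x, y, hx, hy, hxy, rfl⟩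
  have hK := card_K_lt ha hb (hd a b ha hb hab)
  intro m F hF
  obtain ⟨T, hT, ⟨e⟩⟩ := Pool.Agent.H367R3.forest_in_tree F hF
  obtain ⟨z, hz1, hz2, hz3⟩ := tree_emb ha hb hK m (Fin (m + 1)) T hT (Fintype.card_fin _)
  have hAdj : ∀ v w, T.Adj v w → A (z v) (z w) := by
    intro v w hvw
    rcases hz2 v w hvw with h | h
    · exact hA.inv a b _ _ ha hb (hz1 v) (hz1 w) h hab
    · exact hA.symm _ _ (hA.inv a b _ _ ha hb (hz1 w) (hz1 v) h hab)
  have hNA : ∀ v w, v ≠ w → ¬ T.Adj v w → ¬ A (z v) (z w) := by
    intro v w hne hvw h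
    rcases hz3 v w hne hvw with h1 | h1
    · exact absurd (hmin _ _ (hz1 v) (hz1 w) h) (not_le.2 h1)
    · obtain ⟨i, j, hij, h2⟩ := hd _ _ (hz1 v) (hz1 w) h
      exact hij (h1 i j h2).1
  have hinj : Function.Injective z := by
    intro v w hvw
    by_contra hne
    by_cases h1 : T.Adj v w
    · have h2 := hAdj v w h1
      rw [hvw] at h2
      exact hA.irr _ h2
    · have h2 := hz3 v w hne h1
      rw [hvw] at h2
      rcases h2 with h2 | h2
      · have h3 : (J a b).card ≤ (univ : Finset (Fin r)).card := by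
          apply Finset.card_le_card_of_injOn (fun q => q.1)
          · intro q _; exact mem_coe.2 (mem_univ _)
          · intro q hq q' hq' hqq
            rw [mem_coe, mem_J] at hq hq'
            have h4 : q.1 = q'.1 := hqq
            exact Prod.ext h4 (hb.injective (by rw [← hq, ← hq', h4]))
        have h4 : (univ : Finset (Fin r)).card ≤ (J (z w) (z w)).card := by
          apply Finset.card_le_card_of_injOn (fun i => (i, i))
          · intro i _; rw [mem_coe, mem_J]
          · intro i _ i' _ hii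
            simp only [Prod.mk.injEq] at hii
            exact hii.1
        omega
      · have h3 : K a b = J a b := by
          apply Finset.filter_true_of_mem
          intro q _
          exact (h2 q.1 q.1 rfl).2
        rw [h3] at hK
        exact lt_irrefl _ hK
  refine ⟨fun v => z (e v), fun v => hz1 _, hinj.comp e.injective, ?_⟩
  intro v w
  rw [← e.map_rel_iff]
  constructor
  · exact hAdj _ _
  · intro h
    by_contra h1
    by_cases hvw : e v = e w
    · have h' : A (z (e v)) (z (e w)) := h
      rw [hvw] at h'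
      exact hA.irr _ h'
    · exact hNA _ _ hvw h1 h

end Pool.Agent.TH71.TG
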