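import Pool.Agent.TH71.TG.Red
import Pool.Agent.TH71.TG.Cl
import Pool.Agent.TH71.TG.For
set_option autoImplicit false

/-! Order-invariant graphs on tuples of elements of a linear order. The passage from the rational
numbers to a linear order follows `Fin.lean` (written by helper440). -/

namespace Pool.Agent.TH71.TG

theorem dichotomy : ∀ (r : ℕ) (A : (Fin r → ℚ) → (Fin r → ℚ) → Prop), Good r A →
    (∃ x y, StrictMono x ∧ StrictMono y ∧ A x y) → HasCliques A ∨ HasForests A := by
  intro r
  induction r using Nat.strong_induction_on with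
  | _ r ih =>
    intro A hA he
    by_cases h1 : ∃ x y, StrictMono x ∧ StrictMono y ∧ A x y ∧ ∃ p q : Fin r, p < q ∧ x q < y p
    · obtain ⟨x, y, hx, hy, hxy, p, q, hpq, h⟩ := h1
      obtain ⟨r', A', hr, hG, he', hc, hf⟩ := reduce hA hx hy hxy hpq h
      rcases ih r' hr A' hG he' with h | h
      · exact Or.inl (hc h)
      · exact Or.inr (hf h)
    · push Not at h1
      by_cases h2 : ∀ x y, StrictMono x → StrictMono y → A x y → ∃ i j, i ≠ j ∧ x i = y j
      · exact Or.inr (forests hA he h2)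
      · push Not at h2
        obtain ⟨x, y, hx, hy, hxy, hne⟩ := h2
        refine Or.inl (cliques hA hx hy hxy ?_)
        intro p q hpq
        have h3 := h1 x y hx hy hxy p q hpq
        have h4 := h1 y x hy hx (hA.symm _ _ hxy) p q hpq
        have h5 := hne q p hpq.ne'
        have h6 := hne p q hpq.ne
        exact ⟨lt_of_le_of_ne h4 h6, lt_of_le_of_ne h3 (Ne.symm h5)⟩

/-- Adjacency depends on the order type only. -/
def Inv {k : ℕ} {α : Type*} [LinearOrder α] (G : SimpleGraph (Fin k → α)) : Prop :=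
  ∀ x y x' y' : Fin k → α, (∀ i j, x i < x j ↔ x' i < x' j) → (∀ i j, y i < y j ↔ y' i < y' j) →
    (∀ i j, x i < y j ↔ x' i < y' j) → (∀ i j, y i < x j ↔ y' i < x' j) → G.Adj x y → G.Adj x' y'

theorem rank_lt {ι α : Type*} [LinearOrder α] (V : Finset ι) (x : ι → α) {i j : ι} (hi : i ∈ V) :
    (V.filter (fun t => x t < x i)).card < (V.filter (fun t => x t < x j)).card ↔ x i < x j := by
  constructor
  · intro h
    by_contra h'
    have h1 : V.filter (fun t => x t < x j) ⊆ V.filter (fun t => x t < x i) := by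
      intro t ht
      rw [Finset.mem_filter] at ht ⊢
      exact ⟨ht.1, ht.2.trans_le (not_lt.1 h')⟩
    have := Finset.card_le_card h1
    omega
  · intro h
    apply Finset.card_lt_card
    rw [Finset.ssubset_iff_of_subset]
    · refine ⟨i, ?_, ?_⟩
      · rw [Finset.mem_filter]; exact ⟨hi, h⟩
      · rw [Finset.mem_filter]; exact fun h' => lt_irrefl _ h'.2
    · intro t ht
      rw [Finset.mem_filter] at ht ⊢
      exact ⟨ht.1, ht.2.trans h⟩

theorem rank_bd {ι α : Type*} [LinearOrder α] (V : Finset ι) (x : ι → α) {i : ι} (hi : i ∈ V) :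
    (V.filter (fun t => x t < x i)).card < V.card := by
  apply Finset.card_lt_card
  rw [Finset.ssubset_iff_of_subset (Finset.filter_subset _ _)]
  refine ⟨i, hi, ?_⟩
  rw [Finset.mem_filter]
  exact fun h' => lt_irrefl _ h'.2

/-- The rank vector. -/
def rank {k : ℕ} {α : Type*} [LinearOrder α] (x : Fin k → α) : Fin k → Fin k := fun i =>
  ⟨(Finset.univ.filter (fun t => x t < x i)).card, by
    have := rank_bd Finset.univ x (Finset.mem_univ i)
    rwa [Finset.card_univ, Fintype.card_fin] at this⟩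

theorem rank_iff {k : ℕ} {α : Type*} [LinearOrder α] (x : Fin k → α) (i j : Fin k) :
    rank x i < rank x j ↔ x i < x j :=
  rank_lt Finset.univ x (Finset.mem_univ i)

/-- The pairs of tuples have the same type. -/
def Same {k : ℕ} {α β : Type*} [LinearOrder α] [LinearOrder β] (a b : Fin k → α)
    (u v : Fin k → β) : Prop :=
  (∀ i j, a i < a j ↔ u i < u j) ∧ (∀ i j, b i < b j ↔ v i < v j) ∧
    (∀ i j, a i < b j ↔ u i < v j) ∧ (∀ i j, b i < a j ↔ v i < u j)

/-- The relation on increasing tuples. -/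
def Rel {k r : ℕ} {α : Type*} [LinearOrder α] (G : SimpleGraph (Fin k → α)) (f : Fin k → Fin r)
    (u v : Fin r → ℚ) : Prop :=
  ∃ a b : Fin k → α, G.Adj a b ∧ Same a b (fun i => u (f i)) (fun i => v (f i))

theorem good_Rel {k r : ℕ} {α : Type*} [LinearOrder α] (G : SimpleGraph (Fin k → α))
    (f : Fin k → Fin r) : Good r (Rel G f) := by
  refine ⟨?_, ?_, ?_⟩
  · rintro u v ⟨a, b, hab, h1, h2, h3, h4⟩
    exact ⟨b, a, hab.symm, h2, h1, h4, h3⟩
  · rintro u ⟨a, b, hab, h1, h2, h3, h4⟩
    have : a = b := by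
      funext i
      have e1 : ¬ a i < b i := by rw [h3]; exact lt_irrefl _
      have e2 : ¬ b i < a i := by rw [h4]; exact lt_irrefl _
      exact le_antisymm (not_lt.1 e2) (not_lt.1 e1)
    rw [this] at hab
    exact G.irrefl hab
  · rintro x y x' y' hx hy hx' hy' hst ⟨a, b, hab, h1, h2, h3, h4⟩
    refine ⟨a, b, hab, ?_, ?_, ?_, ?_⟩
    · intro i j
      rw [h1, hx.lt_iff_lt, hx'.lt_iff_lt]
    · intro i j
      rw [h2, hy.lt_iff_lt, hy'.lt_iff_lt]
    · intro i j
      rw [h3]; exact (hst (f i) (f j)).1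
    · intro i j
      rw [h4]; exact (hst (f j) (f i)).2

/-- A finite family of tuples of rational numbers can be moved to a large linear order. -/
theorem moveTo {N r : ℕ} {α : Type*} [LinearOrder α] (z : Fin N → Fin r → ℚ) (T : Finset α)
    (h : N * r ≤ T.card) :
    ∃ w : Fin N → Fin r → α, ∀ a b i j, w a i < w b j ↔ z a i < z b j := by
  set V : Finset ℚ := (Finset.univ : Finset (Fin N × Fin r)).image (fun p => z p.1 p.2) with hV
  have hmem : ∀ a i, z a i ∈ V := fun a i => by
    rw [hV, Finset.mem_image]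
    exact ⟨(a, i), Finset.mem_univ _, rfl⟩
  have hcard : V.card ≤ T.card := by
    refine Finset.card_image_le.trans ?_
    rw [Finset.card_univ, Fintype.card_prod, Fintype.card_fin, Fintype.card_fin]
    exact h
  refine ⟨fun a i => T.orderEmbOfFin rfl ⟨(V.filter (fun t => id t < id (z a i))).card,
    (rank_bd V id (hmem a i)).trans_le hcard⟩, ?_⟩
  intro a b i j
  rw [(T.orderEmbOfFin rfl).lt_iff_lt]
  exact rank_lt V id (hmem a i)

theorem adj_moveTo {k r N : ℕ} {α : Type*} [LinearOrder α] {G : SimpleGraph (Fin k → α)}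
    (hG : Inv G) (f : Fin k → Fin r) {z : Fin N → Fin r → ℚ} {w : Fin N → Fin r → α}
    (hw : ∀ a b i j, w a i < w b j ↔ z a i < z b j) (a b : Fin N) :
    G.Adj (fun i => w a (f i)) (fun i => w b (f i)) ↔ Rel G f (z a) (z b) := by
  constructor
  · intro h
    exact ⟨_, _, h, fun i j => hw _ _ _ _, fun i j => hw _ _ _ _, fun i j => hw _ _ _ _,
      fun i j => hw _ _ _ _⟩
  · rintro ⟨a', b', hab, h1, h2, h3, h4⟩
    refine hG a' b' _ _ ?_ ?_ ?_ ?_ hab
    · intro i j; rw [h1, hw]
    · intro i j; rw [h2, hw]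
    · intro i j; rw [h3, hw]
    · intro i j; rw [h4, hw]

/-- If two tuples with the same order type are adjacent, then among the tuples of this order type
there is a large clique or an induced copy of the forest. -/
theorem cliqueOrForest {k m c : ℕ} {α : Type*} [LinearOrder α] (F : SimpleGraph (Fin m))
    (hF : F.IsAcyclic) (G : SimpleGraph (Fin k → α)) (hG : Inv G) (T : Finset α)
    (hT : k * (m + c) ≤ T.card) (x y : Fin k → α) (hxy : G.Adj x y)
    (hlt : ∀ i j, x i < x j ↔ y i < y j) :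
    (∃ w : Fin c → Fin k → α, (∀ a i j, x i < x j ↔ w a i < w a j) ∧
      ∀ a b, a ≠ b → G.Adj (w a) (w b)) ∨
    (∃ w : Fin m → Fin k → α, (∀ a i j, x i < x j ↔ w a i < w a j) ∧ Function.Injective w ∧
      ∀ a b, F.Adj a b ↔ G.Adj (w a) (w b)) := by
  classical
  have heq : ∀ i j, x i = x j → y i = y j := by
    intro i j hij
    apply le_antisymm
    · rw [← not_lt, ← hlt, hij]; exact lt_irrefl _
    · rw [← not_lt, ← hlt, hij]; exact lt_irrefl _
  -- the distinct values
  set V : Finset α := Finset.univ.image x with hV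
  have hmem : ∀ i, x i ∈ V := fun i => by
    rw [hV, Finset.mem_image]; exact ⟨i, Finset.mem_univ _, rfl⟩
  have hVm : ∀ q ∈ V, ∃ i, x i = q := fun q hq => by
    rw [hV, Finset.mem_image] at hq
    obtain ⟨i, _, hi⟩ := hq
    exact ⟨i, hi⟩
  have hrk : V.card ≤ k := by
    refine Finset.card_image_le.trans ?_
    rw [Finset.card_univ, Fintype.card_fin]
  set r := V.card with hrdef
  let o := V.orderIsoOfFin hrdef.symm
  let f : Fin k → Fin r := fun i => o.symm ⟨x i, hmem i⟩
  have hof : ∀ i, (o (f i) : α) = x i := by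
    intro i
    show ((o (o.symm ⟨x i, hmem i⟩) : V) : α) = x i
    rw [OrderIso.apply_symm_apply]
  have hflt : ∀ i j, x i < x j ↔ f i < f j := by
    intro i j
    rw [← hof i, ← hof j]
    exact o.lt_iff_lt
  have hsurj : Function.Surjective f := by
    intro t
    obtain ⟨i, hi⟩ := hVm _ (o t).2
    refine ⟨i, ?_⟩
    apply o.injective
    apply Subtype.ext
    rw [hof, hi]
  choose g hg using hsurj
  have hxg : ∀ t, x (g t) = (o t : α) := fun t => by rw [← hof, hg]
  have hxf : ∀ i, x (g (f i)) = x i := fun i => by rw [hxg, hof]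
  have hyf : ∀ i, y (g (f i)) = y i := fun i => heq _ _ (hxf i)
  have hmx : ∀ s t : Fin r, s < t → x (g s) < x (g t) := by
    intro s t hst
    rw [hxg, hxg]
    exact o.strictMono hst
  have hmy : ∀ s t : Fin r, s < t → y (g s) < y (g t) := fun s t hst =>
    (hlt _ _).1 (hmx s t hst)
  -- the values of both tuples
  obtain ⟨W, hWx, hWy⟩ : ∃ W : Finset α, (∀ i, x i ∈ W) ∧ ∀ i, y i ∈ W :=
    ⟨Finset.univ.image x ∪ Finset.univ.image y,
      fun i => Finset.mem_union_left _ (Finset.mem_image.2 ⟨i, Finset.mem_univ _, rfl⟩),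
      fun i => Finset.mem_union_right _ (Finset.mem_image.2 ⟨i, Finset.mem_univ _, rfl⟩)⟩
  obtain ⟨ρ, hρ⟩ : ∃ ρ : α → ℚ, ∀ s ∈ W, ∀ t, ρ s < ρ t ↔ s < t := by
    refine ⟨fun s => ((W.filter (fun v => id v < id s)).card : ℚ), ?_⟩
    intro s hs t
    rw [Nat.cast_lt]
    exact rank_lt W id hs
  have hedge : ∃ u v : Fin r → ℚ, StrictMono u ∧ StrictMono v ∧ Rel G f u v := by
    refine ⟨fun t => ρ (x (g t)), fun t => ρ (y (g t)), ?_, ?_, x, y, hxy, ?_, ?_, ?_, ?_⟩
    · intro s t hst
      exact (hρ _ (hWx _) _).2 (hmx s t hst)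
    · intro s t hst
      exact (hρ _ (hWy _) _).2 (hmy s t hst)
    · intro i j
      show x i < x j ↔ ρ (x (g (f i))) < ρ (x (g (f j)))
      rw [hρ _ (hWx _), hxf, hxf]
    · intro i j
      show y i < y j ↔ ρ (y (g (f i))) < ρ (y (g (f j)))
      rw [hρ _ (hWy _), hyf, hyf]
    · intro i j
      show x i < y j ↔ ρ (x (g (f i))) < ρ (y (g (f j)))
      rw [hρ _ (hWx _), hxf, hyf]
    · intro i j
      show y i < x j ↔ ρ (y (g (f i))) < ρ (x (g (f j)))
      rw [hρ _ (hWy _), hyf, hxf]
  have hb : ∀ N, N ≤ m + c → N * r ≤ T.card := by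
    intro N hN
    calc N * r ≤ (m + c) * k := Nat.mul_le_mul hN hrk
      _ = k * (m + c) := mul_comm _ _
      _ ≤ T.card := hT
  rcases dichotomy r (Rel G f) (good_Rel G f) hedge with hcl | hfo
  · left
    obtain ⟨z, hzm, hz⟩ := hcl c
    obtain ⟨w, hw⟩ := moveTo z T (hb c (by omega))
    refine ⟨fun a i => w a (f i), ?_, fun a b hab => (adj_moveTo hG f hw a b).2 (hz a b hab)⟩
    intro a i j
    rw [hw, (hzm a).lt_iff_lt]
    exact hflt i j
  · right
    obtain ⟨z, hzm, hzi, hz⟩ := hfo m F hF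
    obtain ⟨w, hw⟩ := moveTo z T (hb m (by omega))
    refine ⟨fun a i => w a (f i), ?_, ?_, ?_⟩
    · intro a i j
      rw [hw, (hzm a).lt_iff_lt]
      exact hflt i j
    · intro a b hab
      apply hzi
      funext t
      have h1 := congrFun hab (g t)
      simp only [hg] at h1
      have e1 : ¬ z a t < z b t := by rw [← hw, h1]; exact lt_irrefl _
      have e2 : ¬ z b t < z a t := by rw [← hw, h1]; exact lt_irrefl _
      exact le_antisymm (not_lt.1 e2) (not_lt.1 e1)
    · intro a b
      rw [hz]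
      exact (adj_moveTo hG f hw a b).symm

end Pool.Agent.TH71.TG
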