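import Mathlib
set_option autoImplicit false

/-! Graphs on tuples of elements of a linear order in which adjacency depends on the order type. -/

namespace Pool.Agent.TH71.TG

/-- The pairs `(x, y)` and `(x', y')` of tuples are compared in the same way. -/
def ST {k : ℕ} {α β : Type} [LinearOrder α] [LinearOrder β] (x y : Fin k → α) (x' y' : Fin k → β) :
    Prop :=
  ∀ i j, (x i < y j ↔ x' i < y' j) ∧ (y j < x i ↔ y' j < x' i)

/-- A symmetric irreflexive relation on the increasing tuples of rational numbers which depends on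
the order type only. -/
structure Good (r : ℕ) (A : (Fin r → ℚ) → (Fin r → ℚ) → Prop) : Prop where
  symm : ∀ x y, A x y → A y x
  irr : ∀ x, ¬ A x x
  inv : ∀ x y x' y', StrictMono x → StrictMono y → StrictMono x' → StrictMono y' →
    ST x y x' y' → A x y → A x' y'

/-- there are arbitrarily large cliques -/
def HasCliques {r : ℕ} (A : (Fin r → ℚ) → (Fin r → ℚ) → Prop) : Prop :=
  ∀ c : ℕ, ∃ z : Fin c → Fin r → ℚ, (∀ a, StrictMono (z a)) ∧ ∀ a b, a ≠ b → A (z a) (z b)

/-- all forests are induced subgraphs -/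
def HasForests {r : ℕ} (A : (Fin r → ℚ) → (Fin r → ℚ) → Prop) : Prop :=
  ∀ (m : ℕ) (F : SimpleGraph (Fin m)), F.IsAcyclic → ∃ z : Fin m → Fin r → ℚ,
    (∀ a, StrictMono (z a)) ∧ Function.Injective z ∧ ∀ a b, F.Adj a b ↔ A (z a) (z b)

/-- `G` is a graph on the `k`-tuples of elements of `{0, …, n-1}` in which adjacency of `x` and `y`
depends only on the order type of `(x, y)`. -/
def OrderInvariant {k n : ℕ} (G : SimpleGraph (Fin k → Fin n)) : Prop :=
  ∀ x y x' y' : Fin k → Fin n, (∀ i j, x i < x j ↔ x' i < x' j) → (∀ i j, y i < y j ↔ y' i < y' j) →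
    (∀ i j, x i < y j ↔ x' i < y' j) → (∀ i j, y i < x j ↔ y' i < x' j) → G.Adj x y → G.Adj x' y'

end Pool.Agent.TH71.TG
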