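import Pool.Agent.TH71.TG.Defs

set_option autoImplicit false

/-! From the tuples of rational numbers to the tuples of elements of a finite linear order. -/

namespace Pool.Agent.TH71.TG

theorem rk_lt {ι α : Type} [LinearOrder α] (V : Finset ι) (x : ι → α) {i j : ι} (hi : i ∈ V) :
    (V.filter (fun t => x t < x i)).card < (V.filter (fun t => x t < x j)).card ↔ x i < x j := by
  constructor
  · intro h
    by_contra h'
    have h1 : V.filter (fun t => x t < x j) ⊆ V.filter (fun t => x t < x i) := by
      intro t ht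
      rw [Finset.mem_filter] at ht ⊢
      exact ⟨ht.1, ht.2.trans_le (not_lt.1 h')⟩
    have := Finset.card_le_card h1
    omega
  · intro h
    apply Finset.card_lt_card
    rw [Finset.ssubset_iff_of_subset]
    · refine ⟨i, ?_, ?_⟩
      · rw [Finset.mem_filter]; exact ⟨hi, h⟩
      · rw [Finset.mem_filter]; exact fun h' => lt_irrefl _ h'.2
    · intro t ht
      rw [Finset.mem_filter] at ht ⊢
      exact ⟨ht.1, ht.2.trans h⟩

theorem rk_bd {ι α : Type} [LinearOrder α] (V : Finset ι) (x : ι → α) {i : ι} (hi : i ∈ V) :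
    (V.filter (fun t => x t < x i)).card < V.card := by
  apply Finset.card_lt_card
  rw [Finset.ssubset_iff_of_subset (Finset.filter_subset _ _)]
  refine ⟨i, hi, ?_⟩
  rw [Finset.mem_filter]
  exact fun h' => lt_irrefl _ h'.2

/-- The rank vector. -/
def rv {k n : ℕ} (x : Fin k → Fin n) : Fin k → Fin k := fun i =>
  ⟨(Finset.univ.filter (fun t => x t < x i)).card, by
    have := rk_bd Finset.univ x (Finset.mem_univ i)
    rwa [Finset.card_univ, Fintype.card_fin] at this⟩

theorem rv_lt {k n : ℕ} (x : Fin k → Fin n) (i j : Fin k) : rv x i < rv x j ↔ x i < x j :=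
  rk_lt Finset.univ x (Finset.mem_univ i)

/-- The pairs of tuples have the same type. -/
def Sm {k : ℕ} {α β : Type} [LinearOrder α] [LinearOrder β] (a b : Fin k → α)
    (u v : Fin k → β) : Prop :=
  (∀ i j, a i < a j ↔ u i < u j) ∧ (∀ i j, b i < b j ↔ v i < v j) ∧
    (∀ i j, a i < b j ↔ u i < v j) ∧ (∀ i j, b i < a j ↔ v i < u j)

/-- The relation on increasing tuples. -/
def RA {k n r : ℕ} (G : SimpleGraph (Fin k → Fin n)) (f : Fin k → Fin r) (u v : Fin r → ℚ) :
    Prop :=
  ∃ a b : Fin k → Fin n, G.Adj a b ∧ Sm a b (fun i => u (f i)) (fun i => v (f i))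

theorem good_RA {k n r : ℕ} (G : SimpleGraph (Fin k → Fin n)) (f : Fin k → Fin r) :
    Good r (RA G f) := by
  refine ⟨?_, ?_, ?_⟩
  · rintro u v ⟨a, b, hab, h1, h2, h3, h4⟩
    exact ⟨b, a, hab.symm, h2, h1, h4, h3⟩
  · rintro u ⟨a, b, hab, h1, h2, h3, h4⟩
    have : a = b := by
      funext i
      have e1 : ¬ a i < b i := by rw [h3]; exact lt_irrefl _
      have e2 : ¬ b i < a i := by rw [h4]; exact lt_irrefl _
      exact le_antisymm (not_lt.1 e2) (not_lt.1 e1)
    rw [this] at hab
    exact G.irrefl hab
  · rintro x y x' y' hx hy hx' hy' hst ⟨a, b, hab, h1, h2, h3, h4⟩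
    refine ⟨a, b, hab, ?_, ?_, ?_, ?_⟩
    · intro i j
      rw [h1, hx.lt_iff_lt, hx'.lt_iff_lt]
    · intro i j
      rw [h2, hy.lt_iff_lt, hy'.lt_iff_lt]
    · intro i j
      rw [h3]; exact (hst (f i) (f j)).1
    · intro i j
      rw [h4]; exact (hst (f j) (f i)).2

/-- A finite family of tuples of rational numbers can be moved to a large finite order. -/
theorem move {N r n : ℕ} (z : Fin N → Fin r → ℚ) (h : N * r ≤ n) :
    ∃ w : Fin N → Fin r → Fin n, ∀ a b i j, w a i < w b j ↔ z a i < z b j := by
  set V : Finset ℚ := (Finset.univ : Finset (Fin N × Fin r)).image (fun p => z p.1 p.2) with hV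
  have hmem : ∀ a i, z a i ∈ V := fun a i => by
    rw [hV, Finset.mem_image]
    exact ⟨(a, i), Finset.mem_univ _, rfl⟩
  have hcard : V.card ≤ n := by
    refine Finset.card_image_le.trans ?_
    rw [Finset.card_univ, Fintype.card_prod, Fintype.card_fin, Fintype.card_fin]
    exact h
  refine ⟨fun a i => ⟨(V.filter (fun t => id t < id (z a i))).card,
    (rk_bd V id (hmem a i)).trans_le hcard⟩, ?_⟩
  intro a b i j
  exact rk_lt V id (hmem a i)

theorem adj_move {k n r N : ℕ} {G : SimpleGraph (Fin k → Fin n)} (hG : OrderInvariant G)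
    (f : Fin k → Fin r) {z : Fin N → Fin r → ℚ} {w : Fin N → Fin r → Fin n}
    (hw : ∀ a b i j, w a i < w b j ↔ z a i < z b j) (a b : Fin N) :
    G.Adj (fun i => w a (f i)) (fun i => w b (f i)) ↔ RA G f (z a) (z b) := by
  constructor
  · intro h
    exact ⟨_, _, h, fun i j => hw _ _ _ _, fun i j => hw _ _ _ _, fun i j => hw _ _ _ _,
      fun i j => hw _ _ _ _⟩
  · rintro ⟨a', b', hab, h1, h2, h3, h4⟩
    refine hG a' b' _ _ ?_ ?_ ?_ ?_ hab
    · intro i j; rw [h1, hw]
    · intro i j; rw [h2, hw]
    · intro i j; rw [h3, hw]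
    · intro i j; rw [h4, hw]

theorem final (hdich : ∀ (r : ℕ) (A : (Fin r → ℚ) → (Fin r → ℚ) → Prop), Good r A →
    (∃ x y, StrictMono x ∧ StrictMono y ∧ A x y) → HasCliques A ∨ HasForests A)
    {k n m c : ℕ} (F : SimpleGraph (Fin m)) (hF : F.IsAcyclic) (G : SimpleGraph (Fin k → Fin n))
    (hG : OrderInvariant G) (hind : ¬ F.IsIndContained G) (hc : G.CliqueFree c) :
    G.Colorable ((k * (m + c)) ^ k) := by
  have hc1 : 1 ≤ c := by
    rcases Nat.eq_zero_or_pos c with h | h
    · exfalso
      subst h
      refine hc ∅ ?_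
      constructor
      · simp
      · simp
    · exact h
  rcases Nat.lt_or_ge n (k * (m + c)) with hn | hn
  · refine (SimpleGraph.colorable_of_fintype G).mono ?_
    rw [Fintype.card_fun, Fintype.card_fin, Fintype.card_fin]
    exact Nat.pow_le_pow_left hn.le k
  · -- colour by rank vectors
    have key : ∀ x y : Fin k → Fin n, G.Adj x y → rv x ≠ rv y := by
      intro x y hxy hr
      have hlt : ∀ i j, x i < x j ↔ y i < y j := by
        intro i j
        rw [← rv_lt x, ← rv_lt y, hr]
      have heq : ∀ i j, x i = x j → y i = y j := by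
        intro i j hij
        apply le_antisymm
        · rw [← not_lt, ← hlt, hij]; exact lt_irrefl _
        · rw [← not_lt, ← hlt, hij]; exact lt_irrefl _
      -- the distinct values
      set V : Finset (Fin n) := Finset.univ.image x with hV
      have hmem : ∀ i, x i ∈ V := fun i => by
        rw [hV, Finset.mem_image]; exact ⟨i, Finset.mem_univ _, rfl⟩
      have hVm : ∀ q ∈ V, ∃ i, x i = q := fun q hq => by
        rw [hV, Finset.mem_image] at hq
        obtain ⟨i, _, hi⟩ := hq
        exact ⟨i, hi⟩
      have hrk : V.card ≤ k := by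
        refine Finset.card_image_le.trans ?_
        rw [Finset.card_univ, Fintype.card_fin]
      set r := V.card with hrdef
      let o := V.orderIsoOfFin hrdef.symm
      let f : Fin k → Fin r := fun i => o.symm ⟨x i, hmem i⟩
      have hof : ∀ i, (o (f i) : Fin n) = x i := by
        intro i
        show ((o (o.symm ⟨x i, hmem i⟩) : V) : Fin n) = x i
        rw [OrderIso.apply_symm_apply]
      have hsurj : Function.Surjective f := by
        intro t
        obtain ⟨i, hi⟩ := hVm _ (o t).2
        refine ⟨i, ?_⟩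
        apply o.injective
        apply Subtype.ext
        rw [hof, hi]
      choose g hg using hsurj
      have hxg : ∀ t, x (g t) = (o t : Fin n) := fun t => by rw [← hof, hg]
      have hxf : ∀ i, x (g (f i)) = x i := fun i => by rw [hxg, hof]
      have hyf : ∀ i, y (g (f i)) = y i := fun i => heq _ _ (hxf i)
      have hmx : ∀ s t : Fin r, s < t → x (g s) < x (g t) := by
        intro s t hst
        rw [hxg, hxg]
        exact o.strictMono hst
      have hmy : ∀ s t : Fin r, s < t → y (g s) < y (g t) := fun s t hst =>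
        (hlt _ _).1 (hmx s t hst)
      have hcast : ∀ p q : Fin n, (((p : ℕ) : ℚ) < ((q : ℕ) : ℚ)) ↔ p < q := by
        intro p q
        rw [Nat.cast_lt, Fin.lt_def]
      have hedge : ∃ u v : Fin r → ℚ, StrictMono u ∧ StrictMono v ∧ RA G f u v := by
        refine ⟨fun t => ((x (g t) : ℕ) : ℚ), fun t => ((y (g t) : ℕ) : ℚ), ?_, ?_, x, y, hxy,
          ?_, ?_, ?_, ?_⟩
        · intro s t hst
          exact (hcast _ _).2 (hmx s t hst)
        · intro s t hst
          exact (hcast _ _).2 (hmy s t hst)
        · intro i j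
          show x i < x j ↔ ((x (g (f i)) : ℕ) : ℚ) < ((x (g (f j)) : ℕ) : ℚ)
          rw [hcast, hxf, hxf]
        · intro i j
          show y i < y j ↔ ((y (g (f i)) : ℕ) : ℚ) < ((y (g (f j)) : ℕ) : ℚ)
          rw [hcast, hyf, hyf]
        · intro i j
          show x i < y j ↔ ((x (g (f i)) : ℕ) : ℚ) < ((y (g (f j)) : ℕ) : ℚ)
          rw [hcast, hxf, hyf]
        · intro i j
          show y i < x j ↔ ((y (g (f i)) : ℕ) : ℚ) < ((x (g (f j)) : ℕ) : ℚ)
          rw [hcast, hyf, hxf]
      have hb : ∀ N, N ≤ m + c → N * r ≤ n := by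
        intro N hN
        calc N * r ≤ (m + c) * k := Nat.mul_le_mul hN hrk
          _ = k * (m + c) := mul_comm _ _
          _ ≤ n := hn
      rcases hdich r (RA G f) (good_RA G f) hedge with hcl | hfo
      · obtain ⟨z, _, hz⟩ := hcl c
        obtain ⟨w, hw⟩ := move z (hb c (by omega))
        have hadj : ∀ a b, a ≠ b → G.Adj (fun i => w a (f i)) (fun i => w b (f i)) :=
          fun a b hab => (adj_move hG f hw a b).2 (hz a b hab)
        have hinj : Function.Injective fun (a : Fin c) (i : Fin k) => w a (f i) := by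
          intro a b hab
          by_contra hne
          have := hadj a b hne
          exact G.ne_of_adj this hab
        refine hc (Finset.univ.map ⟨fun (a : Fin c) (i : Fin k) => w a (f i), hinj⟩) ?_
        constructor
        · intro p hp q hq hpq
          rw [Finset.mem_coe, Finset.mem_map] at hp hq
          obtain ⟨a, _, rfl⟩ := hp
          obtain ⟨b, _, rfl⟩ := hq
          exact hadj a b fun h => hpq (by rw [h])
        · simp
      · obtain ⟨z, _, hzi, hz⟩ := hfo m F hF
        obtain ⟨w, hw⟩ := move z (hb m (by omega))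
        apply hind
        refine ⟨⟨⟨fun a i => w a (f i), ?_⟩, ?_⟩⟩
        · intro a b hab
          apply hzi
          funext t
          have h1 := congrFun hab (g t)
          simp only [hg] at h1
          have e1 : ¬ z a t < z b t := by rw [← hw, h1]; exact lt_irrefl _
          have e2 : ¬ z b t < z a t := by rw [← hw, h1]; exact lt_irrefl _
          exact le_antisymm (not_lt.1 e2) (not_lt.1 e1)
        · intro a b
          rw [hz]
          exact adj_move hG f hw a b
    let C : G.Coloring (Fin k → Fin k) := SimpleGraph.Coloring.mk rv (fun {x y} h => key x y h)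
    refine C.colorable.mono ?_
    rw [Fintype.card_fun, Fintype.card_fin]
    refine Nat.pow_le_pow_left ?_ k
    exact Nat.le_mul_of_pos_right k (by omega)

end Pool.Agent.TH71.TG
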