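import Pool.Agent.TH71.TG.Defs
set_option autoImplicit false

open Finset Filter Topology

namespace Pool.Agent.TH71.TG

/-- a small shift of some coordinates keeps the order type and avoids a finite set -/
theorem perturb {r : ℕ} (v0 p : Fin r → ℚ) (hv : StrictMono v0) (E : Fin r → Prop)
    (hE : ∀ j, E j → ∀ i, p i ≠ v0 j) (U : Finset ℚ) :
    ∃ v : Fin r → ℚ, StrictMono v ∧ ST p v0 p v ∧ ∀ j, E j → v j ∉ U := by
  classical
  set e : Fin r → ℚ := fun j => if E j then 1 else 0 with he
  have ht : ∀ j, Tendsto (fun ε : ℚ => v0 j + e j * ε) (𝓝[>] (0 : ℚ)) (𝓝 (v0 j)) := by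
    intro j
    have h1 : Tendsto (fun ε : ℚ => v0 j + e j * ε) (𝓝 (0 : ℚ)) (𝓝 (v0 j + e j * 0)) :=
      (continuous_const.add (continuous_const.mul continuous_id)).tendsto _
    rw [mul_zero, add_zero] at h1
    exact h1.mono_left nhdsWithin_le_nhds
  have h1 : ∀ᶠ ε in 𝓝[>] (0 : ℚ), ∀ j j' : Fin r, j < j' → v0 j + e j * ε < v0 j' + e j' * ε := by
    rw [eventually_all]
    intro j
    rw [eventually_all]
    intro j'
    by_cases h : j < j'
    · filter_upwards [(ht j).eventually_lt (ht j') (hv h)] with ε h2 _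
      exact h2
    · exact Eventually.of_forall fun ε h2 => absurd h2 h
  have h2 : ∀ᶠ ε in 𝓝[>] (0 : ℚ), ∀ i j : Fin r, (p i < v0 j ↔ p i < v0 j + e j * ε) ∧
      (v0 j < p i ↔ v0 j + e j * ε < p i) := by
    rw [eventually_all]
    intro i
    rw [eventually_all]
    intro j
    by_cases hj : E j
    · rcases lt_trichotomy (p i) (v0 j) with h | h | h
      · filter_upwards [(tendsto_const_nhds (x := p i)).eventually_lt (ht j) h] with ε h2
        exact ⟨⟨fun _ => h2, fun _ => h⟩, ⟨fun h3 => absurd h3 h.not_gt, fun h3 => absurd h3 h2.not_gt⟩⟩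
      · exact absurd h (hE j hj i)
      · filter_upwards [(ht j).eventually_lt (tendsto_const_nhds (x := p i)) h] with ε h2
        exact ⟨⟨fun h3 => absurd h3 h.not_gt, fun h3 => absurd h3 h2.not_gt⟩, ⟨fun _ => h2, fun _ => h⟩⟩
    · refine Eventually.of_forall fun ε => ?_
      have : e j = 0 := by simp [he, hj]
      rw [this, zero_mul, add_zero]
      exact ⟨Iff.rfl, Iff.rfl⟩
  have h3 : ∀ᶠ ε in 𝓝[>] (0 : ℚ), ∀ u ∈ U, ∀ j : Fin r, E j → v0 j + e j * ε ≠ u := by
    refine (Filter.eventually_all_finset U).2 fun u _ => eventually_all.2 fun j => ?_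
    by_cases hj : E j
    · have hej : e j = 1 := by simp [he, hj]
      rcases le_or_gt u (v0 j) with h | h
      · have h7 : ∀ᶠ ε in 𝓝[>] (0 : ℚ), ε ∈ Set.Ioi (0 : ℚ) := self_mem_nhdsWithin
        refine h7.mono ?_
        intro ε hε _
        have hε' : (0 : ℚ) < ε := hε
        rw [hej, one_mul]
        exact ne_of_gt (by linarith)
      · refine ((ht j).eventually_lt (tendsto_const_nhds (x := u)) h).mono ?_
        intro ε h2 _
        exact h2.ne
    · exact Eventually.of_forall fun ε h2 => absurd h2 hj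
  obtain ⟨ε, h4, h5, h6⟩ := (h1.and (h2.and h3)).exists
  refine ⟨fun j => v0 j + e j * ε, fun j j' h => h4 j j' h, fun i j => h5 i j, ?_⟩
  intro j hj hU
  exact h6 _ hU j hj rfl

end Pool.Agent.TH71.TG
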