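import Pool.Agent.TH71.TG.Auto
set_option autoImplicit false

/-! Merging two coordinates of an order-invariant relation which are shifted past each other. -/

namespace Pool.Agent.TH71.TG

theorem exists_kappa (g : ℚ ≃o ℚ) (s t : ℚ) (hst : s < t) (h : t < g s) :
    ∃ κ d : ℚ → ℚ, (∀ v, κ (g v) = g (κ v)) ∧ (∀ v, d (g v) = d v) ∧ κ s = κ t ∧
      ∀ v w, v < w → κ v < κ w ∨ (κ v = κ w ∧ d v < d w) := by
  classical
  obtain ⟨a, ha⟩ : ∃ a : ℤ → ℚ, ∀ n, a n = (g ^ n) s := ⟨_, fun _ => rfl⟩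
  obtain ⟨b, hb⟩ : ∃ b : ℤ → ℚ, ∀ n, b n = (g ^ n) t := ⟨_, fun _ => rfl⟩
  have hg1 : ∀ (n : ℤ) (v : ℚ), (g ^ (n + 1)) v = g ((g ^ n) v) := by
    intro n v
    rw [add_comm, zpow_one_add, RelIso.mul_apply]
  have hg2 : ∀ (n : ℤ) (v : ℚ), (g ^ (n + 1)) v = (g ^ n) (g v) := by
    intro n v
    rw [zpow_add_one, RelIso.mul_apply]
  have ha1 : ∀ n, a (n + 1) = g (a n) := fun n => by rw [ha, ha, hg1]
  have hb1 : ∀ n, b (n + 1) = g (b n) := fun n => by rw [hb, hb, hg1]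
  have hab : ∀ n, a n < b n := fun n => by
    rw [ha, hb]; exact (g ^ n).strictMono hst
  have hba : ∀ n, b n < a (n + 1) := fun n => by
    rw [ha, hb, hg2]; exact (g ^ n).strictMono h
  have hmono : StrictMono a := strictMono_int_of_lt_succ (fun n => (hab n).trans (hba n))
  have hbm : ∀ m n, m < n → b m < a n := fun m n hmn =>
    (hba m).trans_le (hmono.monotone (Int.add_one_le_iff.2 hmn))
  obtain ⟨P, hP⟩ : ∃ P : ℤ → ℚ → Prop, ∀ n v, P n v ↔ (a n ≤ v ∧ v ≤ b n) :=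
    ⟨fun n v => a n ≤ v ∧ v ≤ b n, fun _ _ => Iff.rfl⟩
  have huniq : ∀ m n v, P m v → P n v → m = n := by
    intro m n v hm hn
    rw [hP] at hm hn
    rcases lt_trichotomy m n with h1 | h1 | h1
    · have := hbm m n h1
      linarith [hm.2, hn.1]
    · exact h1
    · have := hbm n m h1
      linarith [hm.1, hn.2]
  have hPg : ∀ n v, P (n + 1) (g v) ↔ P n v := by
    intro n v
    rw [hP, hP, ha1, hb1, g.le_iff_le, g.le_iff_le]
  obtain ⟨κ, hκ1, hκ2⟩ : ∃ κ : ℚ → ℚ, (∀ n v, P n v → κ v = a n) ∧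
      (∀ v, (¬ ∃ n, P n v) → κ v = v) := by
    refine ⟨fun v => if h : ∃ n, P n v then a h.choose else v, ?_, ?_⟩
    · intro n v hn
      have he : ∃ n, P n v := ⟨n, hn⟩
      simp only [dif_pos he]
      rw [huniq _ _ _ he.choose_spec hn]
    · intro v hv
      simp only [dif_neg hv]
  obtain ⟨d, hd1, hd2⟩ : ∃ d : ℚ → ℚ, (∀ n v, P n v → d v = (g ^ (-n)) v) ∧
      (∀ v, (¬ ∃ n, P n v) → d v = 0) := by
    refine ⟨fun v => if h : ∃ n, P n v then (g ^ (-h.choose)) v else 0, ?_, ?_⟩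
    · intro n v hn
      have he : ∃ n, P n v := ⟨n, hn⟩
      simp only [dif_pos he]
      rw [huniq _ _ _ he.choose_spec hn]
    · intro v hv
      simp only [dif_neg hv]
  have hng : ∀ v, (¬ ∃ n, P n v) → ¬ ∃ n, P n (g v) := by
    rintro v hv ⟨n, hn⟩
    apply hv
    refine ⟨n - 1, ?_⟩
    rw [← hPg, sub_add_cancel]
    exact hn
  refine ⟨κ, d, ?_, ?_, ?_, ?_⟩
  · intro v
    by_cases hv : ∃ n, P n v
    · obtain ⟨n, hn⟩ := hv
      rw [hκ1 _ _ hn, hκ1 _ _ ((hPg n v).2 hn), ha1]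
    · rw [hκ2 _ hv, hκ2 _ (hng _ hv)]
  · intro v
    by_cases hv : ∃ n, P n v
    · obtain ⟨n, hn⟩ := hv
      rw [hd1 _ _ hn, hd1 _ _ ((hPg n v).2 hn), ← hg2]
      congr 2
      ring
    · rw [hd2 _ hv, hd2 _ (hng _ hv)]
  · have h0s : a 0 = s := by rw [ha, zpow_zero]; rfl
    have h0t : b 0 = t := by rw [hb, zpow_zero]; rfl
    have h1 : P 0 s := by rw [hP, h0s, h0t]; exact ⟨le_rfl, hst.le⟩
    have h2 : P 0 t := by rw [hP, h0s, h0t]; exact ⟨hst.le, le_rfl⟩
    rw [hκ1 _ _ h1, hκ1 _ _ h2]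
  · intro v w hvw
    by_cases hv : ∃ n, P n v
    · obtain ⟨n, hn⟩ := hv
      by_cases hw : ∃ m, P m w
      · obtain ⟨m, hm⟩ := hw
        rcases lt_trichotomy n m with h1 | h1 | h1
        · left
          rw [hκ1 _ _ hn, hκ1 _ _ hm]
          exact hmono h1
        · right
          subst h1
          rw [hκ1 _ _ hn, hκ1 _ _ hm, hd1 _ _ hn, hd1 _ _ hm]
          exact ⟨rfl, (g ^ (-n)).strictMono hvw⟩
        · exfalso
          have := hbm m n h1
          rw [hP] at hn hm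
          linarith [hn.1, hm.2]
      · left
        rw [hκ1 _ _ hn, hκ2 _ hw]
        rw [hP] at hn
        exact hn.1.trans_lt hvw
    · by_cases hw : ∃ m, P m w
      · obtain ⟨m, hm⟩ := hw
        left
        rw [hκ2 _ hv, hκ1 _ _ hm]
        by_contra h1
        rw [hP] at hm
        apply hv
        refine ⟨m, ?_⟩
        rw [hP]
        exact ⟨not_lt.1 h1, hvw.le.trans hm.2⟩
      · left
        rw [hκ2 _ hv, hκ2 _ hw]
        exact hvw

theorem reduce {r : ℕ} {A : (Fin r → ℚ) → (Fin r → ℚ) → Prop} (hA : Good r A) {x y : Fin r → ℚ}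
    (hx : StrictMono x) (hy : StrictMono y) (hxy : A x y) {p q : Fin r} (hpq : p < q)
    (h : x q < y p) :
    ∃ (r' : ℕ) (A' : (Fin r' → ℚ) → (Fin r' → ℚ) → Prop), r' < r ∧ Good r' A' ∧
      (∃ u v, StrictMono u ∧ StrictMono v ∧ A' u v) ∧ (HasCliques A' → HasCliques A) ∧
      (HasForests A' → HasForests A) := by
  classical
  obtain ⟨g, hg⟩ := exists_auto x y hx hy
  obtain ⟨κ, d, hκ, hd, hpq', hlt⟩ := exists_kappa g (x p) (x q) (hx hpq) (by rw [hg]; exact h)
  have : Countable (ℚ ×ₗ ℚ) := inferInstanceAs (Countable (ℚ × ℚ))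
  obtain ⟨ι⟩ : Nonempty ((ℚ ×ₗ ℚ) ↪o ℚ) := Order.embedding_from_countable_to_dense _ _
  -- the embedding of pairs
  have hι : ∀ a b a' b' : ℚ, ι (toLex (a, b)) < ι (toLex (a', b')) ↔
      (a < a' ∨ (a = a' ∧ b < b')) := by
    intro a b a' b'
    rw [ι.lt_iff_lt, Prod.Lex.toLex_lt_toLex]
  obtain ⟨U, hU⟩ : ∃ U : Finset ℚ, U = Finset.univ.image (fun i => κ (x i)) := ⟨_, rfl⟩
  obtain ⟨u, hu, hur⟩ : ∃ u : Fin U.card → ℚ, StrictMono u ∧ Set.range u = (U : Set ℚ) :=
    ⟨U.orderEmbOfFin rfl, (U.orderEmbOfFin rfl).strictMono, U.range_orderEmbOfFin rfl⟩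
  have hf0 : ∀ i : Fin r, ∃ c : Fin U.card, u c = κ (x i) := by
    intro i
    have h1 : κ (x i) ∈ Set.range u := by
      rw [hur, Finset.mem_coe, hU]
      exact Finset.mem_image.2 ⟨i, Finset.mem_univ _, rfl⟩
    exact h1
  choose f hf using hf0
  have hfs : Function.Surjective f := by
    intro c
    have h1 : u c ∈ Set.range u := ⟨c, rfl⟩
    rw [hur, Finset.mem_coe, hU] at h1
    obtain ⟨i, -, hi⟩ := Finset.mem_image.1 h1
    exact ⟨i, hu.injective (by rw [hf, ← hi])⟩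
  have hcard : U.card < r := by
    have h1 : U.card ≤ r := by
      rw [hU]
      exact Finset.card_image_le.trans (by simp)
    refine lt_of_le_of_ne h1 ?_
    intro h2
    have h3 : Set.InjOn (fun i => κ (x i)) (Finset.univ : Finset (Fin r)) := by
      apply Finset.card_image_iff.1
      rw [← hU, h2]
      simp
    exact hpq.ne (h3 (by simp) (by simp) hpq')
  obtain ⟨X, hX⟩ : ∃ X : (Fin U.card → ℚ) → Fin r → ℚ,
      ∀ w i, X w i = ι (toLex (w (f i), d (x i))) := ⟨_, fun _ _ => rfl⟩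
  have hXlt : ∀ w w' i j, X w i < X w' j ↔
      (w (f i) < w' (f j) ∨ (w (f i) = w' (f j) ∧ d (x i) < d (x j))) := by
    intro w w' i j
    rw [hX, hX, hι]
  have hXmono : ∀ w, StrictMono w → StrictMono (X w) := by
    intro w hw i j hij
    rw [hXlt]
    rcases hlt _ _ (hx hij) with h1 | ⟨h1, h2⟩
    · left
      apply hw
      rw [← hf, ← hf] at h1
      exact hu.lt_iff_lt.1 h1
    · right
      rw [← hf, ← hf] at h1
      rw [hu.injective h1]
      exact ⟨rfl, h2⟩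
  have hXinj : Function.Injective X := by
    intro w w' hww
    funext c
    obtain ⟨i, rfl⟩ := hfs c
    have h1 : X w i = X w' i := by rw [hww]
    rw [hX, hX] at h1
    have h2 := toLex.injective (ι.injective h1)
    exact (Prod.ext_iff.1 h2).1
  have hXST : ∀ a b a' b' : Fin U.card → ℚ, ST a b a' b' → ST (X a) (X b) (X a') (X b') := by
    intro a b a' b' hab i j
    have h1 := hab (f i) (f j)
    have h2 : a (f i) = b (f j) ↔ a' (f i) = b' (f j) := by
      constructor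
      · intro h3
        rcases lt_trichotomy (a' (f i)) (b' (f j)) with h4 | h4 | h4
        · exact absurd (h1.1.2 h4) (by rw [h3]; exact lt_irrefl _)
        · exact h4
        · exact absurd (h1.2.2 h4) (by rw [h3]; exact lt_irrefl _)
      · intro h3
        rcases lt_trichotomy (a (f i)) (b (f j)) with h4 | h4 | h4
        · exact absurd (h1.1.1 h4) (by rw [h3]; exact lt_irrefl _)
        · exact h4
        · exact absurd (h1.2.1 h4) (by rw [h3]; exact lt_irrefl _)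
    rw [hXlt, hXlt, hXlt, hXlt, h1.1, h1.2, h2, eq_comm (a := b (f j)), eq_comm (a := b' (f j)), h2]
    exact ⟨Iff.rfl, Iff.rfl⟩
  refine ⟨U.card, fun w w' => A (X w) (X w'), hcard, ⟨?_, ?_, ?_⟩, ?_, ?_, ?_⟩
  · intro a b hab
    exact hA.symm _ _ hab
  · intro a
    exact hA.irr _
  · intro a b a' b' ha hb ha' hb' hST hab
    exact hA.inv _ _ _ _ (hXmono _ ha) (hXmono _ hb) (hXmono _ ha') (hXmono _ hb')
      (hXST _ _ _ _ hST) hab
  · refine ⟨u, fun c => g (u c), hu, fun c c' hcc => g.strictMono (hu hcc), ?_⟩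
    have h1 : ∀ i, X u i = ι (toLex (κ (x i), d (x i))) := fun i => by rw [hX, hf]
    have h2 : ∀ i, X (fun c => g (u c)) i = ι (toLex (κ (y i), d (y i))) := by
      intro i
      rw [hX, hf, ← hg i, hκ, hd]
    have hmon : StrictMono (fun t : ℚ => ι (toLex (κ t, d t))) := by
      intro t t' htt
      exact (hι _ _ _ _).2 (hlt t t' htt)
    refine hA.inv x y _ _ hx hy (hXmono _ hu)
      (hXmono _ (fun c c' hcc => g.strictMono (hu hcc))) ?_ hxy
    intro i j
    rw [h1, h2]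
    exact ⟨(hmon.lt_iff_lt (a := x i) (b := y j)).symm, (hmon.lt_iff_lt (a := y j) (b := x i)).symm⟩
  · intro hc c
    obtain ⟨z, hz1, hz2⟩ := hc c
    exact ⟨fun a => X (z a), fun a => hXmono _ (hz1 a), hz2⟩
  · intro hF m F hFa
    obtain ⟨z, hz1, hz2, hz3⟩ := hF m F hFa
    exact ⟨fun a => X (z a), fun a => hXmono _ (hz1 a), hXinj.comp hz2, hz3⟩

end Pool.Agent.TH71.TG
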