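import Pool.Agent.TH71.TG.Cls
import Pool.Agent.H507R3.RamAll
set_option autoImplicit false

/-! Order-invariant graphs as subgraphs: passage to an invariant induced subgraph by Ramsey's
theorem. -/

namespace Pool.Agent.TH71.TG

open Finset

theorem count_card (Q : Finset ℕ) (t : ℕ) [DecidablePred (· ∈ Q)] :
    Nat.count (· ∈ Q) t = (Q.filter (· < t)).card := by
  rw [Nat.count_eq_card_filter_range]
  congr 1
  ext v
  simp only [mem_filter, mem_range]
  exact and_comm

/-- The number of values with a property is the number of first indices. -/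
theorem rep_card {l : ℕ} (z : Fin l → ℕ) (P : ℕ → Prop) [DecidablePred P] :
    ((univ.image z).filter P).card =
      (univ.filter (fun j => (∀ j', z j' = z j → j ≤ j') ∧ P (z j))).card := by
  classical
  rw [← Finset.card_image_of_injOn (f := z)
    (s := univ.filter (fun j => (∀ j', z j' = z j → j ≤ j') ∧ P (z j)))]
  · congr 1
    ext v
    constructor
    · intro hv
      rw [mem_filter, mem_image] at hv
      obtain ⟨⟨j, -, hj⟩, hP⟩ := hv
      have hne : (univ.filter (fun j' => z j' = v)).Nonempty := ⟨j, by simp [hj]⟩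
      refine mem_image.2 ⟨(univ.filter (fun j' => z j' = v)).min' hne, ?_, ?_⟩
      · have h1 := Finset.min'_mem _ hne
        rw [mem_filter] at h1
        rw [mem_filter]
        refine ⟨mem_univ _, ?_, ?_⟩
        · intro j' hj'
          apply Finset.min'_le
          rw [mem_filter]
          exact ⟨mem_univ _, hj'.trans h1.2⟩
        · rw [h1.2]; exact hP
      · have h1 := Finset.min'_mem _ hne
        rw [mem_filter] at h1
        exact h1.2
    · intro hv
      obtain ⟨j, hj, rfl⟩ := mem_image.1 hv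
      rw [mem_filter] at hj
      rw [mem_filter]
      exact ⟨mem_image.2 ⟨j, mem_univ _, rfl⟩, hj.2.2⟩
  · intro j hj j' hj' h
    rw [mem_coe, mem_filter] at hj hj'
    exact le_antisymm (hj.2.1 j' h.symm) (hj'.2.1 j h)

theorem eq_of_lt_iff {l : ℕ} {z z' : Fin l → ℕ} (h : ∀ i j, z i < z j ↔ z' i < z' j) (i j : Fin l) :
    z i = z j ↔ z' i = z' j := by
  have h1 := h i j
  have h2 := h j i
  omega

theorem pos_eq {l : ℕ} (z z' : Fin l → ℕ) (h : ∀ i j, z i < z j ↔ z' i < z' j) (i : Fin l) :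
    ((univ.image z).filter (· < z i)).card = ((univ.image z').filter (· < z' i)).card := by
  classical
  rw [rep_card, rep_card]
  congr 1
  ext j
  rw [mem_filter, mem_filter, h j i]
  have h1 : (∀ j', z j' = z j → j ≤ j') ↔ (∀ j', z' j' = z' j → j ≤ j') :=
    ⟨fun h2 j' h3 => h2 j' ((eq_of_lt_iff h _ _).2 h3),
      fun h2 j' h3 => h2 j' ((eq_of_lt_iff h _ _).1 h3)⟩
  rw [h1]

theorem card_eq' {l : ℕ} (z z' : Fin l → ℕ) (h : ∀ i j, z i < z j ↔ z' i < z' j) :
    (univ.image z).card = (univ.image z').card := by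
  classical
  have h1 := rep_card z (fun _ => True)
  have h2 := rep_card z' (fun _ => True)
  rw [Finset.filter_true] at h1 h2
  rw [h1, h2]
  congr 1
  ext j
  rw [mem_filter, mem_filter]
  have h1 : (∀ j', z j' = z j → j ≤ j') ↔ (∀ j', z' j' = z' j → j ≤ j') :=
    ⟨fun h2 j' h3 => h2 j' ((eq_of_lt_iff h _ _).2 h3),
      fun h2 j' h3 => h2 j' ((eq_of_lt_iff h _ _).1 h3)⟩
  rw [h1]

/-- Ramsey's theorem: every graph on tuples is order-invariant on the tuples of a large set. -/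
theorem ramsey_nat (k n : ℕ) : ∃ N : ℕ, ∀ (G : SimpleGraph (Fin k → ℕ)) (S : Finset ℕ),
    N ≤ S.card → ∃ T ⊆ S, T.card = n ∧ ∀ x y x' y' : Fin k → ℕ, (∀ i, x i ∈ T) →
      (∀ i, y i ∈ T) → (∀ i, x' i ∈ T) → (∀ i, y' i ∈ T) →
      (∀ i j, x i < x j ↔ x' i < x' j) → (∀ i j, y i < y j ↔ y' i < y' j) →
      (∀ i j, x i < y j ↔ x' i < y' j) → (∀ i j, y i < x j ↔ y' i < x' j) →
      G.Adj x y → G.Adj x' y' := by
  classical
  obtain ⟨N, hN⟩ := Pool.Agent.H507R3.RamAll.ramsey_all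
    ((Fin k → Fin (k + k)) → (Fin k → Fin (k + k)) → Bool) (k + k) n
  refine ⟨N, fun G S hS => ?_⟩
  obtain ⟨T, hT, hTn, hh⟩ := hN S (fun Q => fun a b => decide
    (G.Adj (fun i => Nat.nth (· ∈ Q) (a i)) (fun i => Nat.nth (· ∈ Q) (b i)))) hS
  refine ⟨T, hT, hTn, ?_⟩
  intro x y x' y' hx hy hx' hy' h1 h2 h3 h4 hadj
  -- the joined tuples
  have hz : ∀ i j, Fin.append x y i < Fin.append x y j ↔ Fin.append x' y' i < Fin.append x' y' j := by
    intro i j
    refine Fin.addCases (fun i => ?_) (fun i => ?_) i <;>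
      refine Fin.addCases (fun j => ?_) (fun j => ?_) j
    · simp only [Fin.append_left]; exact h1 i j
    · simp only [Fin.append_left, Fin.append_right]; exact h3 i j
    · simp only [Fin.append_left, Fin.append_right]; exact h4 i j
    · simp only [Fin.append_right]; exact h2 i j
  obtain ⟨Q, hQ⟩ : ∃ Q : Finset ℕ, Q = univ.image (Fin.append x y) := ⟨_, rfl⟩
  obtain ⟨Q', hQ'⟩ : ∃ Q : Finset ℕ, Q = univ.image (Fin.append x' y') := ⟨_, rfl⟩
  have hQT : Q ⊆ T := by
    rw [hQ]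
    intro v hv
    obtain ⟨i, -, rfl⟩ := mem_image.1 hv
    refine Fin.addCases (fun i => ?_) (fun i => ?_) i
    · simp only [Fin.append_left]; exact hx i
    · simp only [Fin.append_right]; exact hy i
  have hQT' : Q' ⊆ T := by
    rw [hQ']
    intro v hv
    obtain ⟨i, -, rfl⟩ := mem_image.1 hv
    refine Fin.addCases (fun i => ?_) (fun i => ?_) i
    · simp only [Fin.append_left]; exact hx' i
    · simp only [Fin.append_right]; exact hy' i
  have hQc : Q.card ≤ k + k := by
    rw [hQ]; exact Finset.card_image_le.trans (by simp)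
  have hQQ : Q'.card = Q.card := by
    rw [hQ, hQ']; exact (card_eq' _ _ hz).symm
  obtain ⟨κ, hκ⟩ := hh Q.card hQc
  have hcol := (hκ Q hQT rfl).trans (hκ Q' hQT' hQQ).symm
  have hxQ : ∀ i, x i ∈ Q := fun i => by
    rw [hQ]; exact mem_image.2 ⟨Fin.castAdd k i, mem_univ _, by rw [Fin.append_left]⟩
  have hyQ : ∀ i, y i ∈ Q := fun i => by
    rw [hQ]; exact mem_image.2 ⟨Fin.natAdd k i, mem_univ _, by rw [Fin.append_right]⟩
  have hxQ' : ∀ i, x' i ∈ Q' := fun i => by
    rw [hQ']; exact mem_image.2 ⟨Fin.castAdd k i, mem_univ _, by rw [Fin.append_left]⟩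
  have hyQ' : ∀ i, y' i ∈ Q' := fun i => by
    rw [hQ']; exact mem_image.2 ⟨Fin.natAdd k i, mem_univ _, by rw [Fin.append_right]⟩
  have hpx : ∀ i, Nat.count (· ∈ Q) (x i) = Nat.count (· ∈ Q') (x' i) := by
    intro i
    have := pos_eq _ _ hz (Fin.castAdd k i)
    rw [Fin.append_left, Fin.append_left, ← hQ, ← hQ'] at this
    rw [count_card, count_card]
    exact this
  have hpy : ∀ i, Nat.count (· ∈ Q) (y i) = Nat.count (· ∈ Q') (y' i) := by
    intro i
    have := pos_eq _ _ hz (Fin.natAdd k i)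
    rw [Fin.append_right, Fin.append_right, ← hQ, ← hQ'] at this
    rw [count_card, count_card]
    exact this
  have hbd : ∀ t ∈ Q, Nat.count (· ∈ Q) t < k + k := by
    intro t ht
    rw [count_card]
    exact (rank_bd Q id ht).trans_le hQc
  have h5 := congrFun (congrFun hcol (fun i => ⟨_, hbd _ (hxQ i)⟩)) (fun i => ⟨_, hbd _ (hyQ i)⟩)
  have e1 : (fun i => Nat.nth (· ∈ Q) (Nat.count (· ∈ Q) (x i))) = x :=
    funext fun i => Nat.nth_count (hxQ i)
  have e2 : (fun i => Nat.nth (· ∈ Q) (Nat.count (· ∈ Q) (y i))) = y :=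
    funext fun i => Nat.nth_count (hyQ i)
  have e3 : (fun i => Nat.nth (· ∈ Q') (Nat.count (· ∈ Q) (x i))) = x' :=
    funext fun i => by rw [hpx]; exact Nat.nth_count (hxQ' i)
  have e4 : (fun i => Nat.nth (· ∈ Q') (Nat.count (· ∈ Q) (y i))) = y' :=
    funext fun i => by rw [hpy]; exact Nat.nth_count (hyQ' i)
  simp only [e1, e2, e3, e4] at h5
  rw [decide_eq_decide] at h5
  exact h5.1 hadj

/-- The same for an arbitrary linear order. -/
theorem ramsey_order (k n : ℕ) : ∃ N : ℕ, ∀ (α : Type*) [LinearOrder α]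
    (G : SimpleGraph (Fin k → α)) (T : Finset α), N ≤ T.card →
    ∃ e : Fin n → α, StrictMono e ∧ Inv (G.comap (fun (u : Fin k → Fin n) i => e (u i))) := by
  classical
  obtain ⟨N, hN⟩ := ramsey_nat k n
  refine ⟨N, fun α _ G T hT => ?_⟩
  let G1 : SimpleGraph (Fin k → ℕ) :=
    { Adj := fun u v => ∃ (hu : ∀ i, u i < T.card) (hv : ∀ i, v i < T.card),
        G.Adj (fun i => T.orderEmbOfFin rfl ⟨u i, hu i⟩) (fun i => T.orderEmbOfFin rfl ⟨v i, hv i⟩)
      symm := ⟨fun u v ⟨hu, hv, h⟩ => ⟨hv, hu, h.symm⟩⟩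
      loopless := ⟨fun u ⟨_, _, h⟩ => G.irrefl h⟩ }
  obtain ⟨T1, hT1, hT1n, hh⟩ := hN G1 (range T.card) (by rw [card_range]; exact hT)
  have hlt : ∀ i : Fin n, T1.orderEmbOfFin hT1n i < T.card := fun i =>
    mem_range.1 (hT1 (Finset.orderEmbOfFin_mem _ _ _))
  refine ⟨fun i => T.orderEmbOfFin rfl ⟨T1.orderEmbOfFin hT1n i, hlt i⟩, ?_, ?_⟩
  · intro i j hij
    exact (T.orderEmbOfFin rfl).strictMono ((T1.orderEmbOfFin hT1n).strictMono hij)
  · intro u v u' v' h1 h2 h3 h4 hadj
    have hT1' : ∀ a b : Fin n, T1.orderEmbOfFin hT1n a < T1.orderEmbOfFin hT1n b ↔ a < b :=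
      fun a b => (T1.orderEmbOfFin hT1n).lt_iff_lt
    have h5 : G1.Adj (fun i => T1.orderEmbOfFin hT1n (u i)) (fun i => T1.orderEmbOfFin hT1n (v i)) :=
      ⟨fun i => hlt _, fun i => hlt _, hadj⟩
    have h6 := hh _ _ (fun i => T1.orderEmbOfFin hT1n (u' i)) (fun i => T1.orderEmbOfFin hT1n (v' i))
      (fun i => Finset.orderEmbOfFin_mem _ _ _) (fun i => Finset.orderEmbOfFin_mem _ _ _)
      (fun i => Finset.orderEmbOfFin_mem _ _ _) (fun i => Finset.orderEmbOfFin_mem _ _ _)
      (fun i j => by rw [hT1', hT1']; exact h1 i j) (fun i j => by rw [hT1', hT1']; exact h2 i j)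
      (fun i j => by rw [hT1', hT1']; exact h3 i j) (fun i j => by rw [hT1', hT1']; exact h4 i j) h5
    obtain ⟨_, _, h7⟩ := h6
    exact h7

end Pool.Agent.TH71.TG
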